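import Pool.Agent.H28.MCL.Targets
import Pool.Agent.H27.T2.Glue

/-!
Module GLU of the project MCL (gluing the levels of a slowly varying sign).
-/

set_option autoImplicit false

open Finset Filter Pool.Agent.H28.MCL

namespace Pool.Agent.H74.MCL

lemma cmpSum (M x y : ℕ) (hx : 0 < x) (p p' : ℕ → Prop) [DecidablePred p] [DecidablePred p']
    (h : ∀ m, M < m → m ≤ y → p m → p' m) :
    ∑ m ∈ (Icc x y).filter p, (1 : ℝ) / m ≤ M + ∑ m ∈ (Icc x y).filter p', (1 : ℝ) / m := by
  have h1 : (Icc x y).filter p ⊆ Icc 1 M ∪ (Icc x y).filter p' := by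
    intro m hm
    rw [mem_filter, mem_Icc] at hm
    rw [mem_union, mem_Icc, mem_filter, mem_Icc]
    by_cases hM : m ≤ M
    · exact Or.inl ⟨hx.trans_le hm.1.1, hM⟩
    · exact Or.inr ⟨hm.1, h m (not_le.1 hM) hm.1.2 hm.2⟩
  have h2 : ∑ m ∈ (Icc x y).filter p, (1 : ℝ) / m ≤
      ∑ m ∈ Icc 1 M ∪ (Icc x y).filter p', (1 : ℝ) / m :=
    Finset.sum_le_sum_of_subset_of_nonneg h1 fun _ _ _ => by positivity
  have h3 : ∑ m ∈ Icc 1 M ∪ (Icc x y).filter p', (1 : ℝ) / m ≤
      ∑ m ∈ Icc 1 M, (1 : ℝ) / m + ∑ m ∈ (Icc x y).filter p', (1 : ℝ) / m := by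
    rw [← Finset.sum_union_inter]
    have : 0 ≤ ∑ m ∈ Icc 1 M ∩ (Icc x y).filter p', (1 : ℝ) / m :=
      Finset.sum_nonneg fun _ _ => by positivity
    linarith
  have h4 := Pool.Agent.H27.T2.sum_inv_le_self M
  linarith

theorem glu : T_GLU := by
  classical
  intro f Q c δ θ hθ hc
  have hlim : Tendsto (fun N : ℕ => Real.log N) atTop atTop :=
    Real.tendsto_log_atTop.comp tendsto_natCast_atTop_atTop
  choose X Y T hX hXY hL using hc
  have hB : ∀ j M : ℕ, ∃ B : ℕ, M < B ∧ j ≤ B ∧ ((j : ℝ) + 1) * (M + 10) ≤ Real.log B := by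
    intro j M
    obtain ⟨B, hB⟩ := Filter.eventually_atTop.1
      (hlim.eventually_ge_atTop (((j : ℝ) + 1) * (M + 10)))
    refine ⟨max B (max (M + 1) j), ?_, ?_, hB _ (le_max_left _ _)⟩
    · exact lt_of_lt_of_le (Nat.lt_succ_self M) ((le_max_left _ _).trans (le_max_right _ _))
    · exact (le_max_right _ _).trans (le_max_right _ _)
  choose B hB1 hB2 hB3 using hB
  obtain ⟨NN, hNN0, hNNs⟩ : ∃ NN : ℕ → ℕ, NN 0 = Y (B 0 0) ∧
      ∀ j, NN (j + 1) = Y (B (j + 1) (NN j)) :=
    ⟨fun j => Nat.rec (Y (B 0 0)) (fun j x => Y (B (j + 1) x)) j, rfl, fun _ => rfl⟩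
  obtain ⟨prev, hp0, hps⟩ : ∃ prev : ℕ → ℕ, prev 0 = 0 ∧ ∀ j, prev (j + 1) = NN j :=
    ⟨fun j => Nat.rec 0 (fun j _ => NN j) j, rfl, fun _ => rfl⟩
  have hNN : ∀ j, NN j = Y (B j (prev j)) := by
    intro j
    cases j with
    | zero => rw [hNN0, hp0]
    | succ j => rw [hNNs, hps]
  obtain ⟨I, hI⟩ : ∃ I : ℕ → ℕ, ∀ j, I j = B j (prev j) := ⟨_, fun _ => rfl⟩
  have hNI : ∀ j, NN j = Y (I j) := fun j => by rw [hNN, hI]
  have hIp : ∀ j, prev j < I j := fun j => by rw [hI]; exact hB1 _ _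
  have hIj : ∀ j, j ≤ I j := fun j => by rw [hI]; exact hB2 _ _
  have hIlog : ∀ j : ℕ, ((j : ℝ) + 1) * (prev j + 10) ≤ Real.log (I j) := fun j => by
    rw [hI]; exact hB3 _ _
  have hprev : ∀ j, prev j < NN j := by
    intro j
    rw [hNI]
    refine lt_of_lt_of_le (hIp j) (le_trans ?_ (hXY (I j)))
    exact Nat.le_mul_of_pos_right _ (hX _)
  have hlog : ∀ j : ℕ, ((j : ℝ) + 1) * (prev j + 10) ≤
      Real.log ((NN j : ℝ) / (X (I j) : ℝ)) := by
    intro j
    refine (hIlog j).trans ?_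
    have hIpos : (0 : ℝ) < I j := by
      have := hIp j
      exact_mod_cast (show 0 < I j by omega)
    have hXpos : (0 : ℝ) < X (I j) := by exact_mod_cast hX (I j)
    apply Real.log_le_log hIpos
    rw [le_div_iff₀ hXpos, hNI]
    exact_mod_cast hXY (I j)
  have hmono : StrictMono NN := by
    apply strictMono_nat_of_lt_succ
    intro j
    have := hprev (j + 1)
    rwa [hps] at this
  have hex : ∀ m : ℕ, ∃ j, m ≤ NN j := fun m => ⟨m, hmono.le_apply⟩
  obtain ⟨lvl, hlvl⟩ : ∃ lvl : ℕ → ℕ, ∀ j m, prev j < m → m ≤ NN j → lvl m = j := by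
    refine ⟨fun m => Nat.find (hex m), ?_⟩
    intro j m h1 h2
    simp only
    rw [Nat.find_eq_iff]
    refine ⟨h2, ?_⟩
    intro i hi
    rw [not_le]
    refine lt_of_le_of_lt ?_ h1
    cases j with
    | zero => exact absurd hi (Nat.not_lt_zero _)
    | succ j =>
      rw [hps]
      exact hmono.monotone (Nat.lt_succ_iff.1 hi)
  obtain ⟨τ, hτ⟩ : ∃ τ : ℕ → ℤ, ∀ m, τ m = T (I (lvl m)) m := ⟨_, fun _ => rfl⟩
  have hτj : ∀ j m, prev j < m → m ≤ NN j → τ m = T (I j) m := by
    intro j m h1 h2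
    rw [hτ, hlvl j m h1 h2]
  have hj1 : ∀ j : ℕ, (0 : ℝ) < (j : ℝ) + 1 := fun j => by positivity
  have hτv : ∀ m, τ m = 0 ∨ τ m = 1 ∨ τ m = -1 := by
    intro m
    rw [hτ]
    exact (hL _).1 m
  have hprevle : ∀ j : ℕ, (prev j : ℝ) + 10 ≤
      Real.log ((NN j : ℝ) / (X (I j) : ℝ)) / (j + 1) := by
    intro j
    rw [le_div_iff₀ (hj1 j), mul_comm]
    exact hlog j
  have hpn : ∀ j, (0 : ℝ) ≤ prev j := fun j => by positivity
  have hlogpos : ∀ j, 0 < Real.log ((NN j : ℝ) / (X (I j) : ℝ)) := by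
    intro j
    have h1 := hlog j
    have h2 : (0 : ℝ) < ((j : ℝ) + 1) * (prev j + 10) :=
      mul_pos (hj1 j) (by linarith [hpn j])
    linarith
  have hsmall : ∀ z : ℝ, 0 < z → ∀ᶠ j : ℕ in atTop, 2 / ((j : ℝ) + 1) ≤ z := by
    intro z hz
    have : Tendsto (fun j : ℕ => 2 / ((j : ℝ) + 1)) atTop (nhds 0) := by
      have := (tendsto_one_div_add_atTop_nhds_zero_nat (𝕜 := ℝ)).const_mul 2
      rw [mul_zero] at this
      refine this.congr fun j => ?_
      ring
    exact (this.eventually (gt_mem_nhds hz)).mono fun _ h => le_of_lt h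
  refine ⟨fun j => X (I j), NN, τ, fun j => hX _, ?_, hτv, ?_⟩
  · refine tendsto_atTop_mono (f := fun j : ℕ => (j : ℝ)) (fun j => ?_)
      tendsto_natCast_atTop_atTop
    refine le_trans ?_ (hlog j)
    have h2 : (0 : ℝ) ≤ j := by positivity
    nlinarith [hpn j, mul_nonneg h2 (hpn j)]
  · intro ζ hζ
    filter_upwards [hsmall ζ hζ] with j hj
    obtain ⟨-, hL1, hL2, hL3⟩ := hL (I j)
    rw [← hNI] at hL1 hL2 hL3
    have hp := hprevle j
    have hl := hlogpos j
    set L := Real.log ((NN j : ℝ) / (X (I j) : ℝ)) with hLdef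
    have hLj : 2 * (L / (j + 1)) ≤ ζ * L := by
      have h12 : 2 / ((j : ℝ) + 1) * L = 2 * (L / (j + 1)) := by ring
      rw [← h12]
      exact mul_le_mul_of_nonneg_right hj hl.le
    have hLp : 0 < L / ((j : ℝ) + 1) := div_pos hl (hj1 j)
    refine ⟨hτv, ?_, ?_, ?_⟩
    · have h1 := cmpSum (prev j) (X (I j)) (NN j) (hX _) (fun m => τ m ≠ τ (m + 1))
        (fun m => T (I j) m ≠ T (I j) (m + 1) ∨ m = NN j) (by
          intro m hm1 hm2 hne
          by_cases hm3 : m = NN j
          · exact Or.inr hm3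
          · left
            rw [hτj j m hm1 hm2, hτj j (m + 1) (by omega) (by omega)] at hne
            exact hne)
      have h2 : ∑ m ∈ (Icc (X (I j)) (NN j)).filter
          (fun m => T (I j) m ≠ T (I j) (m + 1) ∨ m = NN j), (1 : ℝ) / m ≤
          ∑ m ∈ (Icc (X (I j)) (NN j)).filter (fun m => T (I j) m ≠ T (I j) (m + 1)),
            (1 : ℝ) / m + 1 := by
        rw [Finset.filter_or]
        have h3 : ∑ m ∈ (Icc (X (I j)) (NN j)).filter
              (fun m => T (I j) m ≠ T (I j) (m + 1)) ∪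
            (Icc (X (I j)) (NN j)).filter (fun m => m = NN j), (1 : ℝ) / m ≤
            ∑ m ∈ (Icc (X (I j)) (NN j)).filter
              (fun m => T (I j) m ≠ T (I j) (m + 1)), (1 : ℝ) / m +
            ∑ m ∈ (Icc (X (I j)) (NN j)).filter (fun m => m = NN j), (1 : ℝ) / m := by
          rw [← Finset.sum_union_inter]
          have : 0 ≤ ∑ m ∈ (Icc (X (I j)) (NN j)).filter
              (fun m => T (I j) m ≠ T (I j) (m + 1)) ∩
            (Icc (X (I j)) (NN j)).filter (fun m => m = NN j), (1 : ℝ) / m :=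
            Finset.sum_nonneg fun _ _ => by positivity
          linarith
        have h5 : ∑ m ∈ (Icc (X (I j)) (NN j)).filter (fun m => m = NN j), (1 : ℝ) / m ≤ 1 := by
          have : (Icc (X (I j)) (NN j)).filter (fun m => m = NN j) ⊆ {NN j} := by
            intro m hm
            rw [mem_filter] at hm
            rw [mem_singleton]
            exact hm.2
          refine (Finset.sum_le_sum_of_subset_of_nonneg this
            fun _ _ _ => by positivity).trans ?_
          rw [sum_singleton]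
          have : (1 : ℝ) ≤ NN j := by
            have := hprev j
            exact_mod_cast (show 1 ≤ NN j by omega)
          rw [div_le_one (by linarith)]
          exact this
        linarith
      have h6 : 1 / ((I j : ℝ) + 1) * L ≤ L / (j + 1) := by
        rw [div_mul_eq_mul_div, one_mul]
        apply div_le_div_of_nonneg_left hl.le (hj1 j)
        have : (j : ℝ) ≤ I j := by exact_mod_cast hIj j
        linarith
      linarith
    · have h1 := cmpSum (prev j) (X (I j)) (NN j) (hX _) (fun m => T (I j) m ≠ 0)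
        (fun m => τ m ≠ 0) (by
          intro m hm1 hm2 hne
          rw [hτj j m hm1 hm2]
          exact hne)
      have h5 : (δ - ζ) * L = δ * L - ζ * L := by ring
      rw [h5]
      linarith
    · have h1 := cmpSum (prev j) (X (I j)) (NN j) (hX _)
        (fun m => m ≡ c [MOD Q] ∧ τ m ≠ 0 ∧ f m ≠ (τ m : ℝ))
        (fun m => m ≡ c [MOD Q] ∧ T (I j) m ≠ 0 ∧ f m ≠ (T (I j) m : ℝ)) (by
          intro m hm1 hm2 hne
          rw [hτj j m hm1 hm2] at hne
          exact hne)
      have h5 : (θ + ζ) * L = θ * L + ζ * L := by ring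
      rw [h5]
      linarith

end Pool.Agent.H74.MCL
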